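import Pool.Agent.Helper89.KS.Goals

/-!
# The exponential law
-/

namespace Pool.Agent.Helper24.KS

open MeasureTheory Set Pool.Agent.Helper89.KS
open scoped ENNReal

noncomputable section

theorem pow_exp_int (n : ℕ) :
    IntegrableOn (fun x : ℝ => Real.exp (-x) * x ^ n) (Ioi 0) := by
  have h := Real.GammaIntegral_convergent (s := (n : ℝ) + 1) (by positivity)
  refine h.congr_fun (fun x hx => ?_) measurableSet_Ioi
  simp only [add_sub_cancel_right, Real.rpow_natCast]

theorem pow_exp_eq (n : ℕ) :
    ∫ x in Ioi (0 : ℝ), Real.exp (-x) * x ^ n = (n.factorial : ℝ) := by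
  have h := Real.Gamma_eq_integral (s := (n : ℝ) + 1) (by positivity)
  rw [Real.Gamma_nat_eq_factorial] at h
  rw [h]
  refine setIntegral_congr_fun measurableSet_Ioi (fun x hx => ?_)
  simp only [add_sub_cancel_right, Real.rpow_natCast]

theorem dens_meas : Measurable fun r : ℝ => ENNReal.ofReal (Real.exp (-r)) := by
  fun_prop

theorem integrable_ex1_iff (g : ℝ → ℝ) :
    Integrable g ex1 ↔ IntegrableOn (fun x => Real.exp (-x) * g x) (Ioi 0) := by
  unfold ex1
  rw [integrable_withDensity_iff dens_meas (Filter.Eventually.of_forall fun x => by simp)]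
  unfold IntegrableOn
  refine integrable_congr (Filter.Eventually.of_forall fun x => ?_)
  show g x * (ENNReal.ofReal (Real.exp (-x))).toReal = Real.exp (-x) * g x
  rw [ENNReal.toReal_ofReal (Real.exp_pos _).le, mul_comm]

theorem integral_ex1 (g : ℝ → ℝ) :
    ∫ x, g x ∂ex1 = ∫ x in Ioi (0 : ℝ), Real.exp (-x) * g x := by
  unfold ex1
  rw [integral_withDensity_eq_integral_toReal_smul dens_meas
    (Filter.Eventually.of_forall fun x => by simp)]
  refine integral_congr_ae (Filter.Eventually.of_forall fun x => ?_)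
  show (ENNReal.ofReal (Real.exp (-x))).toReal • g x = Real.exp (-x) * g x
  rw [ENNReal.toReal_ofReal (Real.exp_pos _).le, smul_eq_mul]

theorem ex1_prob : IsProbabilityMeasure ex1 := by
  constructor
  unfold ex1
  rw [withDensity_apply _ MeasurableSet.univ, Measure.restrict_univ]
  rw [← ofReal_integral_eq_lintegral_ofReal]
  · have h := pow_exp_eq 0
    simp only [pow_zero, mul_one, Nat.factorial_zero, Nat.cast_one] at h
    rw [h, ENNReal.ofReal_one]
  · have h := pow_exp_int 0
    simp only [pow_zero, mul_one] at h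
    exact h
  · exact Filter.Eventually.of_forall fun x => (Real.exp_pos _).le

theorem pow_int (n : ℕ) : Integrable (fun r : ℝ => r ^ n) ex1 :=
  (integrable_ex1_iff _).2 (pow_exp_int n)

theorem pow_eq (n : ℕ) : ∫ r, r ^ n ∂ex1 = (n.factorial : ℝ) := by
  rw [integral_ex1]
  exact pow_exp_eq n

theorem exf : ExfStmt := by
  have := ex1_prob
  have h1 : Integrable (fun r : ℝ => r) ex1 := by simpa using pow_int 1
  have e1 : ∫ r, r ∂ex1 = 1 := by simpa using pow_eq 1
  have h2 : Integrable (fun r : ℝ => r ^ 2) ex1 := pow_int 2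
  have e2 : ∫ r, r ^ 2 ∂ex1 = 2 := by simpa using pow_eq 2
  have key : (fun r : ℝ => (r - 1) ^ 2) = fun r => (r ^ 2 - 2 * r) + 1 := by
    funext r; ring
  have h3 : Integrable (fun r : ℝ => r ^ 2 - 2 * r) ex1 := h2.sub (h1.const_mul 2)
  refine ⟨ex1_prob, ?_, h1, e1, ?_, ?_⟩
  · have h0 : ∀ᵐ r ∂(volume.restrict (Ioi (0 : ℝ))), 0 < r := ae_restrict_mem measurableSet_Ioi
    exact (withDensity_absolutelyContinuous _ _).ae_le h0
  · rw [key]
    exact h3.add (integrable_const 1)
  · rw [key, integral_add h3 (integrable_const 1), integral_sub h2 (h1.const_mul 2),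
      integral_const_mul, e1, e2]
    simp only [integral_const, smul_eq_mul, mul_one, probReal_univ]
    norm_num

end

end Pool.Agent.Helper24.KS

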