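import Pool.Agent.Helper44.KS.GoalsC

/-!
# Packet KS-SEC: second moments of the displacements
-/

namespace Pool.Agent.Helper24.KS

open MeasureTheory Filter Topology Set
open scoped ENNReal ContDiff
open Pool.Agent.Helper44.KS

variable {c : ℝ} (Z : KSys c)

theorem a_x : Z.a Z.x = 0 := by
  unfold KSys.a
  have h : (fun e : Fin Z.n → ℝ => e Z.x) =ᵐ[Z.μ] fun _ => (0 : ℝ) := Z.ref
  rw [integral_congr_ae h]
  simp

theorem Y_x : ∀ᵐ d ∂Z.μ, Z.Y d Z.x = 0 := by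
  filter_upwards [Z.ref] with d hd
  simp [KSys.Y, hd, a_x Z]

theorem dist_x (p : Fin Z.n) : Z.dist p Z.x = ∫ d, |Z.Y d p| ∂Z.μ := by
  unfold KSys.dist
  apply integral_congr_ae
  filter_upwards [Y_x Z] with d hd
  rw [hd, sub_zero]

theorem dist_nonneg (p q : Fin Z.n) : 0 ≤ Z.dist p q := by
  unfold KSys.dist
  exact integral_nonneg fun d => abs_nonneg _

theorem sq_bound {K : ℝ} (hK : 0 < K) (h : ∀ (c : ℝ) (Z : KSys c) (p q : Fin Z.n),
    Integrable (fun d => |Z.Y d p - Z.Y d q| ^ 2) Z.μ ∧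
    Integrable (fun d => |Z.Y d p - Z.Y d q| ^ 3) Z.μ ∧
    ∫ d, |Z.Y d p - Z.Y d q| ^ 2 ∂Z.μ ≤ K * Z.dist p q ^ 2 ∧
    ∫ d, |Z.Y d p - Z.Y d q| ^ 3 ∂Z.μ ≤ K * Z.dist p q ^ 3) (p : Fin Z.n) :
    Integrable (fun d => Z.Y d p ^ 2) Z.μ ∧
      (|Z.a p| ≤ Z.S → ∫ d, Z.Y d p ^ 2 ∂Z.μ ≤ 16 * K) := by
  obtain ⟨h1, -, h2, -⟩ := h c Z p Z.x
  have hae : (fun d => |Z.Y d p - Z.Y d Z.x| ^ 2) =ᵐ[Z.μ] fun d => Z.Y d p ^ 2 := by
    filter_upwards [Y_x Z] with d hd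
    rw [hd, sub_zero, sq_abs]
  refine ⟨h1.congr hae, fun hp => ?_⟩
  rw [← integral_congr_ae hae]
  have h3 : Z.dist p Z.x ≤ 4 := by
    rw [dist_x]
    exact Z.m1 p hp
  have h4 : Z.dist p Z.x ^ 2 ≤ 4 ^ 2 := by
    have := dist_nonneg Z p Z.x
    gcongr
  calc ∫ d, |Z.Y d p - Z.Y d Z.x| ^ 2 ∂Z.μ ≤ K * Z.dist p Z.x ^ 2 := h2
    _ ≤ K * 4 ^ 2 := by gcongr
    _ = 16 * K := by ring

theorem S_pos : 0 < Z.S := lt_of_lt_of_le one_pos Z.one_le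

theorem sum_bound {K K' : ℝ} (hK : 0 < K) (h2 : ∀ (c : ℝ) (Z : KSys c) (J : ℝ), 0 ≤ J →
    ∑ p ∈ Finset.univ.filter (fun p => J ≤ |Z.a p|), 1 / (1 + |Z.a p|) ^ 2 ≤ K' * Z.S / (1 + J))
    (J : ℝ) (hJ : 0 ≤ J) (s : Finset (Fin Z.n)) (hs : ∀ p ∈ s, J ≤ |Z.a p|)
    (f : Fin Z.n → ℝ) (hf : ∀ p ∈ s, f p ≤ 16 * K) :
    (∑ p ∈ s, f p / (1 + Z.a p ^ 2)) / Z.S ≤ 32 * K * K' / (1 + J) := by
  have hS := S_pos Z
  rw [div_le_iff₀ hS]
  calc ∑ p ∈ s, f p / (1 + Z.a p ^ 2)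
      ≤ ∑ p ∈ s, 32 * K * (1 / (1 + |Z.a p|) ^ 2) := by
        apply Finset.sum_le_sum
        intro p hp
        have ha := abs_nonneg (Z.a p)
        have hq : Z.a p ^ 2 = |Z.a p| ^ 2 := (sq_abs _).symm
        have h0 : (0 : ℝ) < 1 + Z.a p ^ 2 := by positivity
        have h1 : (0 : ℝ) < (1 + |Z.a p|) ^ 2 := by positivity
        rw [div_le_iff₀ h0]
        have h3 : 32 * K * (1 / (1 + |Z.a p|) ^ 2) * (1 + Z.a p ^ 2) =
            16 * K * (2 * (1 + Z.a p ^ 2) / (1 + |Z.a p|) ^ 2) := by ring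
        rw [h3]
        have h4 : 1 ≤ 2 * (1 + Z.a p ^ 2) / (1 + |Z.a p|) ^ 2 := by
          rw [le_div_iff₀ h1, hq]
          nlinarith [sq_nonneg (1 - |Z.a p|)]
        nlinarith [hf p hp]
    _ = 32 * K * ∑ p ∈ s, 1 / (1 + |Z.a p|) ^ 2 := by rw [Finset.mul_sum]
    _ ≤ 32 * K * ∑ p ∈ Finset.univ.filter (fun p => J ≤ |Z.a p|), 1 / (1 + |Z.a p|) ^ 2 := by
        apply mul_le_mul_of_nonneg_left _ (by positivity)
        apply Finset.sum_le_sum_of_subset_of_nonneg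
        · intro p hp
          simp only [Finset.mem_filter, Finset.mem_univ, true_and]
          exact hs p hp
        · intro p _ _
          positivity
    _ ≤ 32 * K * (K' * Z.S / (1 + J)) := by
        apply mul_le_mul_of_nonneg_left (h2 c Z J hJ) (by positivity)
    _ = 32 * K * K' / (1 + J) * Z.S := by ring

theorem sec (h1 : S_M3K) (h2 : S_CEL) : S_SEC := by
  obtain ⟨K, hK, hM⟩ := h1
  obtain ⟨K', hK', hC⟩ := h2
  constructor
  · refine ⟨32 * K * K', by positivity, fun c Z => ?_⟩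
    have hint : ∀ p : Fin Z.n, Integrable (fun d => Z.Y d p ^ 2 / (1 + Z.a p ^ 2)) Z.μ :=
      fun p => (sq_bound Z hK hM p).1.div_const _
    constructor
    · unfold KSys.nq
      exact (integrable_finsetSum _ fun p _ => hint p).div_const _
    · unfold KSys.nq
      rw [integral_div, integral_finsetSum _ fun p _ => hint p]
      have h3 : ∀ p : Fin Z.n, ∫ d, Z.Y d p ^ 2 / (1 + Z.a p ^ 2) ∂Z.μ =
          (∫ d, Z.Y d p ^ 2 ∂Z.μ) / (1 + Z.a p ^ 2) := fun p => integral_div _ _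
      simp_rw [h3]
      have h4 := sum_bound Z hK hC 0 le_rfl (Z.W Z.S) (fun p _ => abs_nonneg _)
        (fun p => ∫ d, Z.Y d p ^ 2 ∂Z.μ) (fun p hp => (sq_bound Z hK hM p).2 (by
          simpa [KSys.W] using hp))
      simpa using h4
  · intro ε hε
    refine ⟨max 1 (32 * K * K' / ε), le_max_left _ _, fun c Z => ?_⟩
    have h0 : (0 : ℝ) ≤ max 1 (32 * K * K' / ε) := le_trans zero_le_one (le_max_left _ _)
    have h4 := sum_bound Z hK hC (max 1 (32 * K * K' / ε)) h0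
      ((Z.W Z.S).filter (fun p => max 1 (32 * K * K' / ε) < |Z.a p|))
      (fun p hp => (Finset.mem_filter.1 hp).2.le)
      (fun p => ∫ d, Z.Y d p ^ 2 ∂Z.μ) (fun p hp => (sq_bound Z hK hM p).2 (by
          simpa [KSys.W] using (Finset.mem_filter.1 hp).1))
    refine h4.trans ?_
    have h5 : (0 : ℝ) < 1 + max 1 (32 * K * K' / ε) := by linarith
    rw [div_le_iff₀ h5]
    have h6 : 32 * K * K' / ε ≤ max 1 (32 * K * K' / ε) := le_max_right _ _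
    rw [div_le_iff₀ hε] at h6
    nlinarith

end Pool.Agent.Helper24.KS
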